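import Mathlib
import Pool.Agent.Lib.IK.Core

/-!
# The complex Hessian and the Monge-Ampere density (author helper81)

Problem MP_bb7be3_ag, THEOREM N (growth of a Kaehler potential on `C^n`).
-/

set_option autoImplicit false

noncomputable section

open Filter Topology
open scoped ComplexOrder

namespace Pool.Agent.NG

open Pool.Agent.IK

variable {n : ℕ}

/-- the real Hessian -/
def D2 (φ : (Fin n → ℂ) → ℝ) (x u v : Fin n → ℂ) : ℝ := fderiv ℝ (fderiv ℝ φ) x u v

/-- the complex Hessian as a sesquilinear form: `∂̄_u ∂_v φ` -/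
def SS (φ : (Fin n → ℂ) → ℝ) (x u v : Fin n → ℂ) : ℂ :=
  (((D2 φ x u v + D2 φ x (Complex.I • u) (Complex.I • v)) / 4 : ℝ) : ℂ) +
    (((D2 φ x (Complex.I • u) v - D2 φ x u (Complex.I • v)) / 4 : ℝ) : ℂ) * Complex.I

/-- the complex Hessian `∂²φ / ∂z̄_i ∂z_j` -/
def cHess (φ : (Fin n → ℂ) → ℝ) (x : Fin n → ℂ) : Matrix (Fin n) (Fin n) ℂ :=
  Matrix.of fun i j => SS φ x (Pi.single i 1) (Pi.single j 1)

/-- the Monge-Ampere density: the determinant of the complex Hessian -/
def ma (φ : (Fin n → ℂ) → ℝ) (x : Fin n → ℂ) : ℝ := (cHess φ x).det.re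

theorem D2_add_left (φ : (Fin n → ℂ) → ℝ) (x u u' v : Fin n → ℂ) :
    D2 φ x (u + u') v = D2 φ x u v + D2 φ x u' v := by
  simp [D2]

theorem D2_add_right (φ : (Fin n → ℂ) → ℝ) (x u v v' : Fin n → ℂ) :
    D2 φ x u (v + v') = D2 φ x u v + D2 φ x u v' := by
  simp [D2]

theorem D2_smul_left (φ : (Fin n → ℂ) → ℝ) (x u v : Fin n → ℂ) (r : ℝ) :
    D2 φ x (r • u) v = r * D2 φ x u v := by
  simp [D2]

theorem D2_smul_right (φ : (Fin n → ℂ) → ℝ) (x u v : Fin n → ℂ) (r : ℝ) :
    D2 φ x u (r • v) = r * D2 φ x u v := by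
  simp [D2]

theorem D2_neg_left (φ : (Fin n → ℂ) → ℝ) (x u v : Fin n → ℂ) :
    D2 φ x (-u) v = - D2 φ x u v := by
  simp [D2]

theorem D2_neg_right (φ : (Fin n → ℂ) → ℝ) (x u v : Fin n → ℂ) :
    D2 φ x u (-v) = - D2 φ x u v := by
  simp [D2]

theorem SS_add_left (φ : (Fin n → ℂ) → ℝ) (x u u' v : Fin n → ℂ) :
    SS φ x (u + u') v = SS φ x u v + SS φ x u' v := by
  simp only [SS, smul_add, D2_add_left]
  push_cast
  ring

theorem SS_add_right (φ : (Fin n → ℂ) → ℝ) (x u v v' : Fin n → ℂ) :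
    SS φ x u (v + v') = SS φ x u v + SS φ x u v' := by
  simp only [SS, smul_add, D2_add_right]
  push_cast
  ring

theorem II (u : Fin n → ℂ) : Complex.I • (Complex.I • u) = -u := by
  rw [smul_smul, Complex.I_mul_I, neg_smul, one_smul]

theorem smul_split (c : ℂ) (u : Fin n → ℂ) :
    c • u = (c.re : ℝ) • u + (c.im : ℝ) • (Complex.I • u) := by
  conv_lhs => rw [← Complex.re_add_im c]
  rw [add_smul, mul_smul]
  rfl

theorem Ismul_split (c : ℂ) (u : Fin n → ℂ) :
    Complex.I • (c • u) = (c.re : ℝ) • (Complex.I • u) - (c.im : ℝ) • u := by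
  rw [smul_split c u, smul_add, smul_comm Complex.I (c.re : ℝ) u,
    smul_comm Complex.I (c.im : ℝ) (Complex.I • u), II, smul_neg, sub_eq_add_neg]

theorem D2_smul_c_left (φ : (Fin n → ℂ) → ℝ) (x u v : Fin n → ℂ) (c : ℂ) :
    D2 φ x (c • u) v = c.re * D2 φ x u v + c.im * D2 φ x (Complex.I • u) v := by
  rw [smul_split, D2_add_left, D2_smul_left, D2_smul_left]

theorem D2_smul_c_right (φ : (Fin n → ℂ) → ℝ) (x u v : Fin n → ℂ) (c : ℂ) :
    D2 φ x u (c • v) = c.re * D2 φ x u v + c.im * D2 φ x u (Complex.I • v) := by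
  rw [smul_split, D2_add_right, D2_smul_right, D2_smul_right]

theorem D2_I_smul_c_left (φ : (Fin n → ℂ) → ℝ) (x u v : Fin n → ℂ) (c : ℂ) :
    D2 φ x (Complex.I • (c • u)) v = c.re * D2 φ x (Complex.I • u) v - c.im * D2 φ x u v := by
  rw [Ismul_split, sub_eq_add_neg, D2_add_left, D2_smul_left, D2_neg_left, D2_smul_left]
  ring

theorem D2_I_smul_c_right (φ : (Fin n → ℂ) → ℝ) (x u v : Fin n → ℂ) (c : ℂ) :
    D2 φ x u (Complex.I • (c • v)) = c.re * D2 φ x u (Complex.I • v) - c.im * D2 φ x u v := by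
  rw [Ismul_split, sub_eq_add_neg, D2_add_right, D2_smul_right, D2_neg_right, D2_smul_right]
  ring

theorem SS_smul_left (φ : (Fin n → ℂ) → ℝ) (x u v : Fin n → ℂ) (c : ℂ) :
    SS φ x (c • u) v = (starRingEnd ℂ) c * SS φ x u v := by
  have h1 := D2_smul_c_left φ x u v c
  have h2 := D2_I_smul_c_left φ x u v c
  have h3 := D2_smul_c_left φ x u (Complex.I • v) c
  have h4 := D2_I_smul_c_left φ x u (Complex.I • v) c
  unfold SS
  rw [h1, h2, h3, h4]
  apply Complex.ext
  · simp only [Complex.add_re, Complex.mul_re,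
      Complex.ofReal_re, Complex.ofReal_im, Complex.I_re, Complex.I_im, Complex.conj_re,
      Complex.conj_im, Complex.add_im, Complex.mul_im]
    ring
  · simp only [Complex.add_re, Complex.mul_re,
      Complex.ofReal_re, Complex.ofReal_im, Complex.I_re, Complex.I_im, Complex.conj_re,
      Complex.conj_im, Complex.add_im, Complex.mul_im]
    ring

theorem SS_smul_right (φ : (Fin n → ℂ) → ℝ) (x u v : Fin n → ℂ) (c : ℂ) :
    SS φ x u (c • v) = c * SS φ x u v := by
  have h1 := D2_smul_c_right φ x u v c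
  have h2 := D2_I_smul_c_right φ x u v c
  have h3 := D2_smul_c_right φ x (Complex.I • u) v c
  have h4 := D2_I_smul_c_right φ x (Complex.I • u) v c
  unfold SS
  rw [h1, h2, h3, h4]
  apply Complex.ext
  · simp only [Complex.add_re, Complex.mul_re,
      Complex.ofReal_re, Complex.ofReal_im, Complex.I_re, Complex.I_im,
      Complex.add_im, Complex.mul_im]
    ring
  · simp only [Complex.add_re, Complex.mul_re,
      Complex.ofReal_re, Complex.ofReal_im, Complex.I_re, Complex.I_im,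
      Complex.add_im, Complex.mul_im]
    ring

theorem SS_zero_left (φ : (Fin n → ℂ) → ℝ) (x v : Fin n → ℂ) : SS φ x 0 v = 0 := by
  simp [SS, D2]

theorem SS_zero_right (φ : (Fin n → ℂ) → ℝ) (x u : Fin n → ℂ) : SS φ x u 0 = 0 := by
  simp [SS, D2]

theorem SS_sum_left (φ : (Fin n → ℂ) → ℝ) (x v : Fin n → ℂ) (s : Finset (Fin n))
    (f : Fin n → Fin n → ℂ) : SS φ x (∑ i ∈ s, f i) v = ∑ i ∈ s, SS φ x (f i) v := by
  classical
  induction s using Finset.induction_on with
  | empty => simp [SS_zero_left]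
  | insert a s ha ih => rw [Finset.sum_insert ha, Finset.sum_insert ha, SS_add_left, ih]

theorem SS_sum_right (φ : (Fin n → ℂ) → ℝ) (x u : Fin n → ℂ) (s : Finset (Fin n))
    (f : Fin n → Fin n → ℂ) : SS φ x u (∑ i ∈ s, f i) = ∑ i ∈ s, SS φ x u (f i) := by
  classical
  induction s using Finset.induction_on with
  | empty => simp [SS_zero_right]
  | insert a s ha ih => rw [Finset.sum_insert ha, Finset.sum_insert ha, SS_add_right, ih]

theorem vec_sum (v : Fin n → ℂ) : v = ∑ i, v i • (Pi.single i (1 : ℂ) : Fin n → ℂ) := by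
  funext k
  simp [Finset.sum_apply, Pi.single_apply]

/-- the quadratic form of the complex Hessian -/
theorem quad (φ : (Fin n → ℂ) → ℝ) (x u v : Fin n → ℂ) :
    star u ⬝ᵥ (cHess φ x).mulVec v = SS φ x u v := by
  conv_rhs => rw [vec_sum u, vec_sum v]
  rw [SS_sum_left]
  simp only [SS_sum_right, SS_smul_left, SS_smul_right]
  simp only [dotProduct, Matrix.mulVec, cHess, Matrix.of_apply, Pi.star_apply, RCLike.star_def,
    Finset.mul_sum]
  refine Finset.sum_congr rfl (fun i _ => Finset.sum_congr rfl (fun j _ => ?_))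
  ring

theorem D2_symm {φ : (Fin n → ℂ) → ℝ} {x : Fin n → ℂ} (hφ : ContDiffAt ℝ 2 φ x)
    (u v : Fin n → ℂ) : D2 φ x u v = D2 φ x v u := by
  have h := hφ.isSymmSndFDerivAt (by simp)
  exact h.eq u v

theorem SS_self {φ : (Fin n → ℂ) → ℝ} {x : Fin n → ℂ} (hφ : ContDiffAt ℝ 2 φ x)
    (v : Fin n → ℂ) : SS φ x v v = ((levi φ x v / 4 : ℝ) : ℂ) := by
  have h := D2_symm hφ v (Complex.I • v)
  simp only [SS, h, sub_self, zero_div, Complex.ofReal_zero, zero_mul, add_zero]
  rfl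

theorem SS_conj {φ : (Fin n → ℂ) → ℝ} {x : Fin n → ℂ} (hφ : ContDiffAt ℝ 2 φ x)
    (u v : Fin n → ℂ) : (starRingEnd ℂ) (SS φ x u v) = SS φ x v u := by
  have h1 := D2_symm hφ u v
  have h2 := D2_symm hφ (Complex.I • u) (Complex.I • v)
  have h3 := D2_symm hφ (Complex.I • u) v
  have h4 := D2_symm hφ u (Complex.I • v)
  unfold SS
  rw [h1, h2, h3, h4]
  apply Complex.ext
  · simp only [Complex.conj_re, Complex.add_re, Complex.mul_re, Complex.ofReal_re,
      Complex.ofReal_im, Complex.I_re, Complex.I_im]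
    ring
  · simp only [Complex.conj_im, Complex.add_im, Complex.mul_im, Complex.ofReal_re,
      Complex.ofReal_im, Complex.I_re, Complex.I_im]
    ring

theorem cHess_isHermitian {φ : (Fin n → ℂ) → ℝ} {x : Fin n → ℂ} (hφ : ContDiffAt ℝ 2 φ x) :
    (cHess φ x).IsHermitian := by
  ext i j
  rw [Matrix.conjTranspose_apply]
  exact SS_conj hφ _ _

/-- positivity -/
theorem cHess_posSemidef {φ : (Fin n → ℂ) → ℝ} {x : Fin n → ℂ} (hφ : ContDiffAt ℝ 2 φ x)
    (h : ∀ v, 0 ≤ levi φ x v) : (cHess φ x).PosSemidef := by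
  refine Matrix.PosSemidef.of_dotProduct_mulVec_nonneg (cHess_isHermitian hφ) (fun v => ?_)
  rw [quad, SS_self hφ]
  have := h v
  exact_mod_cast (by positivity : (0:ℝ) ≤ levi φ x v / 4)

theorem cHess_posDef {φ : (Fin n → ℂ) → ℝ} {x : Fin n → ℂ} (hφ : ContDiffAt ℝ 2 φ x)
    (h : ∀ v, v ≠ 0 → 0 < levi φ x v) : (cHess φ x).PosDef := by
  refine Matrix.PosDef.of_dotProduct_mulVec_pos (cHess_isHermitian hφ) (fun v hv => ?_)
  rw [quad, SS_self hφ]
  have := h v hv
  exact_mod_cast (by positivity : (0:ℝ) < levi φ x v / 4)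

theorem ma_pos {φ : (Fin n → ℂ) → ℝ} {x : Fin n → ℂ} (hφ : ContDiffAt ℝ 2 φ x)
    (h : ∀ v, v ≠ 0 → 0 < levi φ x v) : 0 < ma φ x := by
  have h1 := (cHess_posDef hφ h).det_pos
  exact (Complex.lt_def.mp h1).1

/-- the determinant of a positive semidefinite complex Hessian which is at most `l` -/
theorem ma_le {φ : (Fin n → ℂ) → ℝ} {x : Fin n → ℂ} (hφ : ContDiffAt ℝ 2 φ x) {l : ℝ}
    (h : ∀ v, 0 ≤ levi φ x v) (hl : ∀ v, levi φ x v ≤ 4 * l * ∑ i, ‖v i‖ ^ 2) :
    ma φ x ≤ l ^ n := by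
  have hH := cHess_isHermitian hφ
  have hev : ∀ i, hH.eigenvalues i = levi φ x (hH.eigenvectorBasis i) / 4 := by
    intro i
    rw [hH.eigenvalues_eq, quad, SS_self hφ]
    simp
  have hn1 : ∀ i, ∑ j, ‖(hH.eigenvectorBasis i) j‖ ^ 2 = 1 := by
    intro i
    have h1 : ‖hH.eigenvectorBasis i‖ = 1 := hH.eigenvectorBasis.orthonormal.1 i
    have h2 := EuclideanSpace.norm_sq_eq (hH.eigenvectorBasis i)
    rw [h1, one_pow] at h2
    exact h2.symm
  have hdet : ma φ x = ∏ i, hH.eigenvalues i := by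
    unfold ma
    rw [hH.det_eq_prod_eigenvalues]
    show (∏ i, ((hH.eigenvalues i : ℝ) : ℂ)).re = _
    rw [← Complex.ofReal_prod, Complex.ofReal_re]
  rw [hdet]
  calc ∏ i, hH.eigenvalues i ≤ ∏ _i : Fin n, l := by
        refine Finset.prod_le_prod (fun i _ => ?_) (fun i _ => ?_)
        · rw [hev]; have := h (hH.eigenvectorBasis i); positivity
        · rw [hev]
          have h3 := hl (hH.eigenvectorBasis i)
          have h4 := hn1 i
          rw [h4] at h3
          linarith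
    _ = l ^ n := by simp

end Pool.Agent.NG
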