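import Mathlib
import Pool.Agent.Lib.NG.Hess

/-!
# Smoothness of the density, maximum principle on a ball (author helper81)

Problem MP_bb7be3_ag, THEOREM N.
-/

set_option autoImplicit false

noncomputable section

open Filter Topology
open scoped ComplexOrder

namespace Pool.Agent.NG

open Pool.Agent.IK

variable {n : ℕ}

theorem contDiff_D2 {φ : (Fin n → ℂ) → ℝ} (hφ : ContDiff ℝ 4 φ) (u v : Fin n → ℂ) :
    ContDiff ℝ 2 (fun x => D2 φ x u v) := by
  have h1 : ContDiff ℝ 3 (fderiv ℝ φ) := hφ.fderiv_right (by norm_num)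
  have h2 : ContDiff ℝ 2 (fderiv ℝ (fderiv ℝ φ)) := h1.fderiv_right (by norm_num)
  exact (h2.clm_apply contDiff_const).clm_apply contDiff_const

theorem contDiff_SS {φ : (Fin n → ℂ) → ℝ} (hφ : ContDiff ℝ 4 φ) (u v : Fin n → ℂ) :
    ContDiff ℝ 2 (fun x => SS φ x u v) := by
  have h0 : ∀ f : (Fin n → ℂ) → ℝ, ContDiff ℝ 2 f → ContDiff ℝ 2 (fun x => (f x : ℂ)) :=
    fun f hf => Complex.ofRealCLM.contDiff.comp hf
  unfold SS
  exact (h0 _ (((contDiff_D2 hφ _ _).add (contDiff_D2 hφ _ _)).div_const 4)).add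
    ((h0 _ (((contDiff_D2 hφ _ _).sub (contDiff_D2 hφ _ _)).div_const 4)).mul contDiff_const)

theorem contDiff_ma {φ : (Fin n → ℂ) → ℝ} (hφ : ContDiff ℝ 4 φ) : ContDiff ℝ 2 (ma φ) := by
  have h1 : ContDiff ℝ 2 (fun x => (cHess φ x).det) := by
    simp only [Matrix.det_apply]
    refine ContDiff.sum (fun σ _ => ?_)
    refine ContDiff.const_smul _ ?_
    exact contDiff_prod (fun i _ => contDiff_SS hφ _ _)
  exact Complex.reCLM.contDiff.comp h1

theorem contDiff_log_ma {φ : (Fin n → ℂ) → ℝ} (hφ : ContDiff ℝ 4 φ)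
    (h : ∀ x v, v ≠ 0 → 0 < levi φ x v) : ContDiff ℝ 2 (fun x => Real.log (ma φ x)) := by
  refine (contDiff_ma hφ).log (fun x => ?_)
  exact (ma_pos (hφ.of_le (by norm_num)).contDiffAt (h x)).ne'

/-- `|x - z|²` -/
def dsq (z x : Fin n → ℂ) : ℝ := ∑ i, ‖x i - z i‖ ^ 2

theorem continuous_dsq (z : Fin n → ℂ) : Continuous (dsq z) := by
  unfold dsq
  fun_prop

theorem norm_le_of_dsq {z x : Fin n → ℂ} {R : ℝ} (hR : 0 ≤ R) (h : dsq z x ≤ R ^ 2) :
    ‖x - z‖ ≤ R := by
  rw [pi_norm_le_iff_of_nonneg hR]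
  intro i
  have h1 : ‖x i - z i‖ ^ 2 ≤ dsq z x :=
    Finset.single_le_sum (f := fun i => ‖x i - z i‖ ^ 2) (fun i _ => by positivity)
      (Finset.mem_univ i)
  exact (le_abs_self _).trans (abs_le_of_sq_le_sq (h1.trans h) hR)

/-- `q (s) = R² - |x + s e - z|²` is a quadratic polynomial -/
theorem dsq_line (z x e : Fin n → ℂ) (s : ℝ) :
    dsq z (x + s • e) = dsq z x + 2 * s * (∑ i, (star (x i - z i) * e i).re) +
      s ^ 2 * ∑ i, ‖e i‖ ^ 2 := by
  unfold dsq
  rw [Finset.mul_sum, Finset.mul_sum, ← Finset.sum_add_distrib, ← Finset.sum_add_distrib]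
  refine Finset.sum_congr rfl (fun i _ => ?_)
  have e1 : (x + s • e) i - z i = (x i - z i) + (s : ℂ) * e i := by
    simp only [Pi.add_apply, Pi.smul_apply, Complex.real_smul]; ring
  rw [e1, ← Complex.normSq_eq_norm_sq, ← Complex.normSq_eq_norm_sq, ← Complex.normSq_eq_norm_sq,
    Complex.normSq_add]
  simp only [Complex.normSq_ofReal, map_mul, Complex.conj_ofReal,
    Complex.mul_re, Complex.mul_im, Complex.ofReal_re, Complex.ofReal_im, Complex.conj_re,
    Complex.conj_im, RCLike.star_def]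
  ring

/-- `log q (s)` for a quadratic polynomial `q (s) = a - 2 b s - c s²` -/
theorem two_log (a b c : ℝ) (ha : 0 < a) :
    Two (fun s : ℝ => Real.log (a - 2 * b * s - c * s ^ 2)) (-(2 * b) / a)
      ((-(2 * c) * a - (2 * b) ^ 2) / a ^ 2) := by
  have hq : ∀ s : ℝ, HasDerivAt (fun s : ℝ => a - 2 * b * s - c * s ^ 2) (-(2 * b) - 2 * c * s) s := by
    intro s
    have h1 := ((hasDerivAt_id s).const_mul (2 * b)).const_sub a
    have h2 := ((hasDerivAt_pow 2 s).const_mul c)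
    refine (h1.sub h2).congr_deriv ?_
    simp only [Nat.cast_ofNat, Nat.add_one_sub_one, pow_one]
    ring
  have hpos : ∀ᶠ s : ℝ in 𝓝 0, 0 < a - 2 * b * s - c * s ^ 2 := by
    have hc : ContinuousAt (fun s : ℝ => a - 2 * b * s - c * s ^ 2) 0 := (hq 0).continuousAt
    exact hc.eventually (lt_mem_nhds (by simpa using ha))
  refine ⟨fun s => (-(2 * b) - 2 * c * s) / (a - 2 * b * s - c * s ^ 2), ?_, by simp, ?_⟩
  · filter_upwards [hpos] with s hs
    exact (hq s).log hs.ne'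
  · have h1 : HasDerivAt (fun s : ℝ => -(2 * b) - 2 * c * s) (-(2 * c)) 0 := by
      refine (((hasDerivAt_id (0:ℝ)).const_mul (2 * c)).const_sub (-(2 * b))).congr_deriv ?_
      simp
    have h2 := h1.div (hq 0) (by simpa using ha.ne')
    refine h2.congr_deriv ?_
    simp
    ring

/-- the second derivative at a local maximum of `f + k log (R² - |x - z|²)` -/
theorem levi_le {f : (Fin n → ℂ) → ℝ} {x z : Fin n → ℂ} {R k : ℝ} (hk : 0 ≤ k)
    (hf : ContDiffAt ℝ 2 f x) (hx : dsq z x < R ^ 2)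
    (hmax : IsLocalMax (fun y => f y + k * Real.log (R ^ 2 - dsq z y)) x) (v : Fin n → ℂ) :
    levi f x v ≤ 4 * (k * R ^ 2 / (R ^ 2 - dsq z x) ^ 2) * ∑ i, ‖v i‖ ^ 2 := by
  set a := R ^ 2 - dsq z x with ha
  have ha0 : 0 < a := by rw [ha]; linarith
  set B : (Fin n → ℂ) → ℝ := fun e => ∑ i, (star (x i - z i) * e i).re with hB
  set N := ∑ i, ‖v i‖ ^ 2 with hN
  have key : ∀ e : Fin n → ℂ, fderiv ℝ (fderiv ℝ f) x e e +
      k * ((-(2 * ∑ i, ‖e i‖ ^ 2) * a - (2 * B e) ^ 2) / a ^ 2) ≤ 0 := by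
    intro e
    have hp : ∀ s : ℝ, HasDerivAt (fun s : ℝ => x + s • e) e s := by
      intro s
      simpa using ((hasDerivAt_id s).smul_const e).const_add x
    have h1 := Two.path (φ := f) (p := fun s : ℝ => x + s • e) (v := fun _ => e) (w := 0)
      (by simpa using hf) (Eventually.of_forall hp) (hasDerivAt_const _ _)
    simp only [zero_smul, add_zero, map_zero] at h1
    have h2 := h1.add ((two_log a (B e) (∑ i, ‖e i‖ ^ 2) ha0).const_mul k)
    have hcongr : (fun s : ℝ => f (x + s • e) + k * Real.log (R ^ 2 - dsq z (x + s • e))) =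
        fun s : ℝ => f (x + s • e) +
          k * Real.log (a - 2 * B e * s - (∑ i, ‖e i‖ ^ 2) * s ^ 2) := by
      funext s
      rw [dsq_line, ha]
      congr 3
      ring
    have h3 : Two (fun s : ℝ => f (x + s • e) + k * Real.log (R ^ 2 - dsq z (x + s • e)))
        (fderiv ℝ f x e + k * (-(2 * B e) / a))
        (fderiv ℝ (fderiv ℝ f) x e e +
          k * ((-(2 * ∑ i, ‖e i‖ ^ 2) * a - (2 * B e) ^ 2) / a ^ 2)) := by
      rw [hcongr]; exact h2
    have h4 := h3.const_mul (-1)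
    have hm : IsLocalMin (fun s : ℝ => -1 * (f (x + s • e) +
        k * Real.log (R ^ 2 - dsq z (x + s • e)))) 0 := by
      have hc : Tendsto (fun s : ℝ => x + s • e) (𝓝 0) (𝓝 x) := by
        have : Continuous fun s : ℝ => x + s • e := by fun_prop
        have h := this.tendsto 0
        simpa using h
      have h := hc.eventually hmax
      filter_upwards [h] with s hs
      simp only [zero_smul, add_zero]
      linarith
    have h5 := h4.min hm
    linarith
  have k1 := key v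
  have k2 := key (Complex.I • v)
  have hIN : ∑ i, ‖(Complex.I • v) i‖ ^ 2 = N := by
    rw [hN]
    refine Finset.sum_congr rfl (fun i _ => ?_)
    simp
  rw [hIN] at k2
  -- `B(v)² + B(iv)² ≤ |x - z|² |v|²`
  have hCS : (B v) ^ 2 + (B (Complex.I • v)) ^ 2 ≤ dsq z x * N := by
    have e1 : (B v) ^ 2 + (B (Complex.I • v)) ^ 2 = ‖∑ i, star (x i - z i) * v i‖ ^ 2 := by
      have h1 : B v = (∑ i, star (x i - z i) * v i).re := by
        rw [hB, Complex.re_sum]
      have h2 : B (Complex.I • v) = -(∑ i, star (x i - z i) * v i).im := by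
        rw [hB, Complex.im_sum, ← Finset.sum_neg_distrib]
        refine Finset.sum_congr rfl (fun i _ => ?_)
        simp only [Pi.smul_apply, smul_eq_mul, Complex.mul_re, Complex.mul_im, Complex.I_re,
          Complex.I_im]
        ring
      rw [h1, h2, ← Complex.normSq_eq_norm_sq, Complex.normSq_apply]
      ring
    rw [e1]
    have h3 : ‖∑ i, star (x i - z i) * v i‖ ≤ ∑ i, ‖x i - z i‖ * ‖v i‖ := by
      refine (norm_sum_le _ _).trans (le_of_eq ?_)
      refine Finset.sum_congr rfl (fun i _ => ?_)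
      rw [norm_mul, norm_star]
    have h4 : (∑ i, ‖x i - z i‖ * ‖v i‖) ^ 2 ≤ (∑ i, ‖x i - z i‖ ^ 2) * ∑ i, ‖v i‖ ^ 2 :=
      Finset.sum_mul_sq_le_sq_mul_sq _ _ _
    calc ‖∑ i, star (x i - z i) * v i‖ ^ 2 ≤ (∑ i, ‖x i - z i‖ * ‖v i‖) ^ 2 := by gcongr
      _ ≤ _ := h4
  have hsum : levi f x v ≤ k * ((4 * N * a + 4 * ((B v) ^ 2 + (B (Complex.I • v)) ^ 2)) / a ^ 2) := by
    have e2 : levi f x v = fderiv ℝ (fderiv ℝ f) x v v +
      fderiv ℝ (fderiv ℝ f) x (Complex.I • v) (Complex.I • v) := rfl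
    have e3 : k * ((4 * N * a + 4 * ((B v) ^ 2 + (B (Complex.I • v)) ^ 2)) / a ^ 2) =
        -(k * ((-(2 * N) * a - (2 * B v) ^ 2) / a ^ 2)) -
        (k * ((-(2 * N) * a - (2 * B (Complex.I • v)) ^ 2) / a ^ 2)) := by ring
    rw [e2, e3]
    linarith
  refine hsum.trans ?_
  have e4 : 4 * (k * R ^ 2 / a ^ 2) * N = k * ((4 * N * R ^ 2) / a ^ 2) := by ring
  rw [e4]
  gcongr
  have : R ^ 2 = a + dsq z x := by rw [ha]; ring
  rw [this]
  nlinarith [hCS]

end Pool.Agent.NG
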