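import Mathlib
import Pool.Agent.Lib.NG.Max

/-!
# THEOREM N: the growth of a Kaehler potential bounds the volume of `K_M + ε [ω]` (author helper81)

Problem MP_bb7be3_ag.
-/

set_option autoImplicit false

noncomputable section

open Filter Topology
open scoped ComplexOrder

namespace Pool.Agent.NG

open Pool.Agent.IK

variable {n : ℕ}

/-- the potential `log det(φ_{j k̄}) + u + ε φ` of the form `θ = i∂∂̄ log ω^n + i∂∂̄u + ε ω` -/
def pot (φ u : (Fin n → ℂ) → ℝ) (ε : ℝ) (x : Fin n → ℂ) : ℝ := Real.log (ma φ x) + u x + ε * φ x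

/-- the Schwarz lemma on the ball of radius `R` around a maximum point of `u` -/
theorem key {φ u : (Fin n → ℂ) → ℝ} (hφ : ContDiff ℝ 4 φ) (hpsh : ∀ x v, v ≠ 0 → 0 < levi φ x v)
    (hu : ContDiff ℝ 2 u) {ε c R M : ℝ} (hε : 0 ≤ ε) (hc : 0 ≤ c) (hR : 0 < R) {z : Fin n → ℂ}
    (hz : ∀ x, u x ≤ u z) (hθ : ∀ x v, 0 ≤ levi (pot φ u ε) x v)
    (hcθ : ∀ x, c * ma φ x ≤ ma (pot φ u ε) x) (hM : ∀ x, ‖x - z‖ ≤ R → φ x ≤ M) :
    c * ma φ z * R ^ (2 * n) ≤ (2 * n) ^ n * Real.exp (ε * (M - φ z)) := by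
  have hma : ∀ x, 0 < ma φ x := fun x =>
    ma_pos (hφ.of_le (by norm_num)).contDiffAt (hpsh x)
  have hpot : ContDiff ℝ 2 (pot φ u ε) :=
    ((contDiff_log_ma hφ hpsh).add hu).add (contDiff_const.mul (hφ.of_le (by norm_num)))
  set P : (Fin n → ℂ) → ℝ := fun x => Real.exp (pot φ u ε x) * (R ^ 2 - dsq z x) ^ (2 * n) with hP
  have hPc : Continuous P :=
    (Real.continuous_exp.comp hpot.continuous).mul
      ((continuous_const.sub (continuous_dsq z)).pow _)
  have hcomp : IsCompact {x | dsq z x ≤ R ^ 2} := by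
    refine Metric.isCompact_of_isClosed_isBounded
      (isClosed_le (continuous_dsq z) continuous_const) ?_
    refine (Metric.isBounded_closedBall (x := z) (r := R)).subset (fun x hx => ?_)
    rw [Metric.mem_closedBall, dist_eq_norm]
    exact norm_le_of_dsq hR.le hx
  have hzz : dsq z z = 0 := by simp [dsq]
  have hzm : z ∈ {x | dsq z x ≤ R ^ 2} := by
    show dsq z z ≤ R ^ 2
    rw [hzz]; positivity
  obtain ⟨y, hy, hmax⟩ := hcomp.exists_isMaxOn ⟨z, hzm⟩ hPc.continuousOn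
  have hPz : P z = Real.exp (pot φ u ε z) * (R ^ 2) ^ (2 * n) := by
    rw [hP]; simp only [hzz, sub_zero]
  have hPzy : P z ≤ P y := hmax hzm
  have hPz0 : 0 < P z := by rw [hPz]; positivity
  have hylt : dsq z y < R ^ 2 := by
    rcases lt_or_eq_of_le (show dsq z y ≤ R ^ 2 from hy) with h | h
    · exact h
    · exfalso
      rcases Nat.eq_zero_or_pos n with hn | hn
      · subst hn
        have h0 : dsq z y = 0 := by simp [dsq]
        rw [h0] at h
        exact absurd h (by positivity)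
      · have : P y = 0 := by
          rw [hP]
          simp only [h, sub_self]
          rw [zero_pow (by omega), mul_zero]
        linarith
  set q := R ^ 2 - dsq z y with hq
  have hq0 : 0 < q := by rw [hq]; linarith
  -- the local maximum of the logarithm
  have hloc : IsLocalMax (fun x => pot φ u ε x + (2 * n : ℝ) * Real.log (R ^ 2 - dsq z x)) y := by
    have hopen : ∀ᶠ x in 𝓝 y, dsq z x < R ^ 2 :=
      (continuous_dsq z).continuousAt.eventually (gt_mem_nhds hylt)
    filter_upwards [hopen] with x hx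
    have hx0 : 0 < R ^ 2 - dsq z x := by linarith
    have h1 : P x ≤ P y := hmax (show dsq z x ≤ R ^ 2 from hx.le)
    have h2 : ∀ w : Fin n → ℂ, 0 < R ^ 2 - dsq z w →
        Real.log (P w) = pot φ u ε w + (2 * n : ℝ) * Real.log (R ^ 2 - dsq z w) := by
      intro w hw
      rw [hP]
      simp only
      rw [Real.log_mul (Real.exp_pos _).ne' (pow_pos hw _).ne', Real.log_exp, Real.log_pow]
      push_cast
      ring
    rw [← h2 x hx0, ← h2 y hq0]
    refine Real.log_le_log ?_ h1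
    rw [hP]
    simp only
    positivity
  have hlevi := levi_le (k := 2 * n) (by positivity) hpot.contDiffAt hylt hloc
  have hmaθ : ma (pot φ u ε) y ≤ (2 * n * R ^ 2 / q ^ 2) ^ n :=
    ma_le hpot.contDiffAt (hθ y) hlevi
  have h3 : c * ma φ y ≤ (2 * n * R ^ 2 / q ^ 2) ^ n := (hcθ y).trans hmaθ
  have hexp : ∀ x, Real.exp (pot φ u ε x) = ma φ x * Real.exp (u x + ε * φ x) := by
    intro x
    rw [pot, add_assoc, Real.exp_add, Real.exp_log (hma x)]
  have hPy : P y = ma φ y * Real.exp (u y + ε * φ y) * q ^ (2 * n) := by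
    rw [hP]; simp only [← hq]; rw [hexp]
  have hyM : φ y ≤ M := hM y (norm_le_of_dsq hR.le hylt.le)
  have h4 : c * (ma φ z * Real.exp (u z + ε * φ z) * (R ^ 2) ^ (2 * n)) ≤
      (2 * n * R ^ 2) ^ n * Real.exp (u z + ε * M) := by
    calc c * (ma φ z * Real.exp (u z + ε * φ z) * (R ^ 2) ^ (2 * n)) = c * P z := by
          rw [hPz, hexp]
      _ ≤ c * P y := mul_le_mul_of_nonneg_left hPzy hc
      _ = (c * ma φ y) * (Real.exp (u y + ε * φ y) * q ^ (2 * n)) := by rw [hPy]; ring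
      _ ≤ (2 * n * R ^ 2 / q ^ 2) ^ n * (Real.exp (u y + ε * φ y) * q ^ (2 * n)) :=
          mul_le_mul_of_nonneg_right h3 (by positivity)
      _ = (2 * n * R ^ 2) ^ n * Real.exp (u y + ε * φ y) := by
          rw [div_pow, pow_mul]
          field_simp
      _ ≤ (2 * n * R ^ 2) ^ n * Real.exp (u z + ε * M) := by
          refine mul_le_mul_of_nonneg_left (Real.exp_le_exp.mpr ?_) (by positivity)
          have := hz y
          have := mul_le_mul_of_nonneg_left hyM hε
          linarith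
  have hR2 : (0 : ℝ) < R ^ (2 * n) := by positivity
  have he : (0 : ℝ) < Real.exp (u z + ε * φ z) := Real.exp_pos _
  have e5 : Real.exp (u z + ε * M) = Real.exp (u z + ε * φ z) * Real.exp (ε * (M - φ z)) := by
    rw [← Real.exp_add]; ring_nf
  have e6 : c * (ma φ z * Real.exp (u z + ε * φ z) * (R ^ 2) ^ (2 * n)) =
      (c * ma φ z * R ^ (2 * n)) * (Real.exp (u z + ε * φ z) * R ^ (2 * n)) := by
    rw [← pow_mul, show 2 * (2 * n) = 2 * n + 2 * n by ring, pow_add]
    ring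
  have e7 : (2 * n * R ^ 2 : ℝ) ^ n * Real.exp (u z + ε * M) =
      ((2 * n) ^ n * Real.exp (ε * (M - φ z))) * (Real.exp (u z + ε * φ z) * R ^ (2 * n)) := by
    rw [e5, mul_pow, ← pow_mul]
    ring
  rw [e6, e7] at h4
  exact le_of_mul_le_mul_right h4 (by positivity)

/-- THEOREM N. -/
theorem main {Γ : Type*} [Group Γ] [MulAction Γ (Fin n → ℂ)] {K : Set (Fin n → ℂ)}
    (hK : IsCompact K) (hΓ : ∀ x : Fin n → ℂ, ∃ γ : Γ, γ • x ∈ K)
    {φ : (Fin n → ℂ) → ℝ} (hφ : ContDiff ℝ 4 φ) (hpsh : ∀ x v, v ≠ 0 → 0 < levi φ x v) :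
    ∃ C : ℝ, 0 < C ∧ ∀ ε R M : ℝ, 0 ≤ ε → ε ≤ 1 → 0 < R → (∀ x, ‖x‖ ≤ R + C → φ x ≤ M) →
      ∀ u : (Fin n → ℂ) → ℝ, ContDiff ℝ 2 u → (∀ (γ : Γ) x, u (γ • x) = u x) →
        (∀ x v, 0 ≤ levi (pot φ u ε) x v) →
          ∃ x, ma (pot φ u ε) x ≤ C * Real.exp (ε * M) / R ^ (2 * n) * ma φ x := by
  have hma : ∀ x, 0 < ma φ x := fun x =>
    ma_pos (hφ.of_le (by norm_num)).contDiffAt (hpsh x)
  have hne : K.Nonempty := by
    obtain ⟨γ, h⟩ := hΓ 0
    exact ⟨_, h⟩
  have hmac : Continuous (ma φ) := (contDiff_ma hφ).continuous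
  obtain ⟨z1, hz1, hmin1⟩ := hK.exists_isMinOn hne hmac.continuousOn
  obtain ⟨z2, hz2, hmin2⟩ := hK.exists_isMinOn hne hφ.continuous.continuousOn
  obtain ⟨r0, hr0⟩ := hK.isBounded.exists_norm_le
  set m0 := ma φ z1 with hm0
  have hm0p : 0 < m0 := hma z1
  set f0 := |φ z2| with hf0
  set C := |r0| + (2 * n) ^ n * Real.exp f0 / m0 + 1 with hC
  have hCpos : 0 < C := by rw [hC]; positivity
  refine ⟨C, hCpos, fun ε R M hε hε1 hR hM u hu hinv hθ => ?_⟩
  -- the maximum of `u`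
  obtain ⟨z, hzK, hzmax⟩ := hK.exists_isMaxOn hne hu.continuous.continuousOn
  have hz : ∀ x, u x ≤ u z := by
    intro x
    obtain ⟨γ, hγ⟩ := hΓ x
    have := hzmax hγ
    rw [← hinv γ x]
    exact this
  by_contra hcon
  simp only [not_exists, not_le] at hcon
  set c := C * Real.exp (ε * M) / R ^ (2 * n) with hc
  have hc0 : 0 ≤ c := by rw [hc]; positivity
  have hMz : ∀ x, ‖x - z‖ ≤ R → φ x ≤ M := by
    intro x hx
    refine hM x ?_
    have h1 : ‖x‖ ≤ ‖x - z‖ + ‖z‖ := by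
      have := norm_add_le (x - z) z
      simpa using this
    have h2 : ‖z‖ ≤ |r0| := (hr0 z hzK).trans (le_abs_self _)
    have h3 : |r0| ≤ C := by
      rw [hC]
      have : 0 ≤ (2 * n : ℝ) ^ n * Real.exp f0 / m0 := by positivity
      linarith
    linarith
  have h := key hφ hpsh hu hε hc0 hR hz hθ (fun x => (hcon x).le) hMz
  have hRp : (0 : ℝ) < R ^ (2 * n) := by positivity
  have h1 : c * ma φ z * R ^ (2 * n) = C * Real.exp (ε * M) * ma φ z := by
    rw [hc]; field_simp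
  have h2 : Real.exp (ε * (M - φ z)) ≤ Real.exp (ε * M) * Real.exp f0 := by
    rw [← Real.exp_add]
    refine Real.exp_le_exp.mpr ?_
    have h3 : φ z2 ≤ φ z := hmin2 hzK
    have h4 : -f0 ≤ φ z := by
      have := neg_abs_le (φ z2)
      linarith
    have h5 : -(ε * φ z) ≤ f0 := by
      have h6 : 0 ≤ f0 := abs_nonneg _
      nlinarith
    linarith
  rw [h1] at h
  have h7 : C * m0 ≤ (2 * n) ^ n * Real.exp f0 := by
    have h8 : C * Real.exp (ε * M) * m0 ≤ (2 * n) ^ n * (Real.exp (ε * M) * Real.exp f0) :=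
      calc C * Real.exp (ε * M) * m0 ≤ C * Real.exp (ε * M) * ma φ z := by
            refine mul_le_mul_of_nonneg_left (hmin1 hzK) (by positivity)
        _ ≤ (2 * n) ^ n * Real.exp (ε * (M - φ z)) := h
        _ ≤ _ := mul_le_mul_of_nonneg_left h2 (by positivity)
    have hep := Real.exp_pos (ε * M)
    have h9 : Real.exp (ε * M) * (C * m0) ≤ Real.exp (ε * M) * ((2 * n) ^ n * Real.exp f0) := by
      calc _ = C * Real.exp (ε * M) * m0 := by ring
        _ ≤ _ := h8
        _ = _ := by ring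
    exact le_of_mul_le_mul_left h9 hep
  have h10 : C ≤ (2 * n) ^ n * Real.exp f0 / m0 := by
    rw [le_div_iff₀ hm0p]; exact h7
  have h11 := abs_nonneg r0
  rw [hC] at h10
  linarith

end Pool.Agent.NG
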